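import Pool.Agent.X179.SC.Fin2
import Pool.Agent.X179.SC.DLR2
import Pool.Agent.X179.SC.ELIM
import Pool.Agent.X179.SC.GAV
import Pool.Agent.X179.SC.OBS
import Pool.Agent.X179.SC.PUSH
import Pool.Agent.X179.SC.RP1
import Pool.Agent.X179.SC.SYM
import Pool.Agent.X179.SC.WIL
import Pool.Agent.TH964.CF.P_CL
import Pool.Agent.TH964.CF.P_DEN
import Pool.Agent.TH964.CF.P_EX
import Pool.Agent.TH964.CF.P_POS
import Pool.Agent.TH964.CF.P_TINV
import Pool.Agent.TH964.CF.P_TRP
import Pool.Agent.TH964.CF.Fin2

/-!
# Lattice Yang-Mills theory: screening of sources of trivial N-ality at every coupling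

Four-dimensional Wilson lattice gauge theory with an arbitrary compact gauge group `G`, the action
being taken in a faithful unitary representation `π` (for example `SU(N)` with its defining
representation) and the Wilson loops in a second unitary representation `ρ` in which the centre of
`G` fixes a nonzero vector (for example the adjoint representation of a compact simple group).  At
every inverse coupling `β > 0` the static potential of the sources `ρ` is bounded and the area law
fails for the Wilson loops in the representation `ρ`.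
-/

namespace Pool.Agent.Results.MP_7f377f_mp.AdjointScreening

open MeasureTheory Pool.Agent.X179

/-- The sites of the periodic lattice `(ℤ / n)⁴`. -/
abbrev Site (n : ℕ) : Type := Fin 4 → ZMod n

/-- The configurations; `U (x, i)` is the group element on the edge from `x` to `x + e i`. -/
abbrev Config (G : Type) (n : ℕ) : Type := Site n × Fin 4 → G

/-- The unit vector in direction `i`. -/
def e (n : ℕ) (i : Fin 4) : Site n := Pi.single i 1

section

variable {G : Type} [Group G] {n : ℕ}

/-- The product of the link variables around the plaquette with corners `x`, `x + e i`,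
`x + e i + e j`, `x + e j`. -/
def plaquette (U : Config G n) (x : Site n) (i j : Fin 4) : G :=
  U (x, i) * U (x + e n i, j) * (U (x + e n j, i))⁻¹ * (U (x, j))⁻¹

/-- The exponent `β ∑_p Re Tr π(U_p)` of the Wilson action; the sum runs over all plaquettes. -/
noncomputable def action [NeZero n] {N : ℕ} (π : G →* Matrix.unitaryGroup (Fin N) ℂ) (β : ℝ)
    (U : Config G n) : ℝ :=
  β * ∑ x : Site n, ∑ i : Fin 4, ∑ j : Fin 4,
    if i < j then (Matrix.trace (π (plaquette U x i j) : Matrix (Fin N) (Fin N) ℂ)).re else 0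

/-- The lattice gauge theory with Wilson action at inverse coupling `β`: the probability measure
with density proportional to `exp (β ∑_p Re Tr π(U_p))` with respect to the product of the
normalised Haar measures `σ`. -/
noncomputable def gibbs [MeasurableSpace G] (σ : Measure G) {N : ℕ}
    (π : G →* Matrix.unitaryGroup (Fin N) ℂ) (β : ℝ) (n : ℕ) [NeZero n] : Measure (Config G n) :=
  (Measure.pi fun _ => σ).tilted (action π β)

/-- The product of the link variables along the straight path of length `l` from `x` in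
direction `i`. -/
def segment (U : Config G n) (x : Site n) (i : Fin 4) : ℕ → G
  | 0 => 1
  | l + 1 => segment U x i l * U (x + l • e n i, i)

/-- The product of the link variables around the rectangle with corners `x`, `x + a e i`,
`x + a e i + b e j`, `x + b e j`. -/
def rectangle (U : Config G n) (x : Site n) (i j : Fin 4) (a b : ℕ) : G :=
  segment U x i a * segment U (x + a • e n i) j b * (segment U (x + b • e n j) i a)⁻¹ *
    (segment U x j b)⁻¹

/-- The expectation, in the theory with Wilson action in the representation `π`, of the Wilson loop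
`Tr ρ(U_ℓ)` in the representation `ρ` of the rectangle with corners `x`, `x + a e i`,
`x + a e i + b e j`, `x + b e j`. -/
noncomputable def wilsonLoop [MeasurableSpace G] (σ : Measure G) {N : ℕ}
    (π : G →* Matrix.unitaryGroup (Fin N) ℂ) {M : ℕ} (ρ : G →* Matrix.unitaryGroup (Fin M) ℂ)
    (β : ℝ) (n : ℕ) [NeZero n] (x : Site n) (i j : Fin 4) (a b : ℕ) : ℂ :=
  ∫ U, Matrix.trace (ρ (rectangle U x i j a b) : Matrix (Fin M) (Fin M) ℂ) ∂gibbs σ π β n

/-- The area law with constant `κ` for the Wilson loops in the representation `ρ`: there is `K` such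
that for every rectangle with sides `a, b ≥ 1`, the upper limit, as the size `n` of the lattice tends
to infinity, of the absolute value of the expectation of the Wilson loop is at most
`K exp (- κ a b)`. -/
def AreaLaw [MeasurableSpace G] (σ : Measure G) {N : ℕ} (π : G →* Matrix.unitaryGroup (Fin N) ℂ)
    {M : ℕ} (ρ : G →* Matrix.unitaryGroup (Fin M) ℂ) (β κ : ℝ) : Prop :=
  ∃ K : ℝ, ∀ a b : ℕ, 1 ≤ a → 1 ≤ b → ∀ ε : ℝ, 0 < ε → ∃ n₀ : ℕ, ∀ (n : ℕ) [NeZero n], n₀ ≤ n →
    ∀ (x : Site n) (i j : Fin 4), i ≠ j →
      ‖wilsonLoop σ π ρ β n x i j a b‖ ≤ K * Real.exp (-(κ * (a * b))) + ε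

end

section aux

variable {G : Type} [Group G] {n : ℕ}

theorem segment_eq (U : Config G n) (x : Site n) (i : Fin 4) (l : ℕ) :
    segment U x i l = TH964.CF.seg U x i l := by
  induction l with
  | zero => rfl
  | succ l ih => rw [segment, ih]; rfl

theorem rectangle_eq (U : Config G n) (x : Site n) (i j : Fin 4) (a b : ℕ) :
    rectangle U x i j a b = TH964.CF.rect U x i j a b := by
  unfold rectangle
  rw [segment_eq, segment_eq, segment_eq, segment_eq]
  rfl

theorem wilsonLoop_eq [MeasurableSpace G] (σ : Measure G) {N : ℕ}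
    (π : G →* Matrix.unitaryGroup (Fin N) ℂ) {M : ℕ} (ρ : G →* Matrix.unitaryGroup (Fin M) ℂ)
    (β : ℝ) (n : ℕ) [NeZero n] (x : Site n)
    (i j : Fin 4) (a b : ℕ) : wilsonLoop σ π ρ β n x i j a b =
      ∫ U, Matrix.trace (ρ (TH964.CF.rect U x i j a b) : Matrix (Fin M) (Fin M) ℂ)
        ∂TH964.CF.gibbs σ π β n := by
  unfold wilsonLoop
  simp only [rectangle_eq]
  rfl

end aux

/-- **Sources of trivial N-ality are screened at every coupling.**
`G` is a compact group with normalised Haar measure `σ` and an injective continuous unitary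
representation `π` of dimension `N`, in which the Wilson action is taken; `ρ` is a continuous unitary
representation of dimension `M`, in which the Wilson loops are taken, and the centre of `G` fixes a
nonzero vector `v` of `ℂ^M`; for instance `G` is a compact simple Lie group such as `SU(N)`, and `ρ`
is its adjoint representation.  Let `β > 0`.  For the four-dimensional lattice gauge theory with
Wilson action at inverse coupling `β` on the periodic lattices:

* The static potential of the sources `ρ` is bounded: there is a constant `m` such that for every `R`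
  there is `c > 0` such that for all large `T` and all large even `n` (depending on `T`) the Wilson
  loops of all the rectangles with sides `2 R` and `2 T` are at least `c exp (- m (2 T))`; `m` does
  not depend on `R`.
* The area law fails for the Wilson loops in the representation `ρ`, for every `κ > 0`. -/
theorem result {N M : ℕ} {G : Type} [Group G] [TopologicalSpace G] [IsTopologicalGroup G]
    [CompactSpace G] [MeasurableSpace G] [BorelSpace G] (σ : Measure G)
    [IsProbabilityMeasure σ] [σ.IsHaarMeasure] (π : G →* Matrix.unitaryGroup (Fin N) ℂ)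
    (hπ : Continuous π) (hinj : Function.Injective π)
    (ρ : G →* Matrix.unitaryGroup (Fin M) ℂ) (hρ : Continuous ρ) (v : Fin M → ℂ) (hv : v ≠ 0)
    (hz : ∀ z ∈ Subgroup.center G, (ρ z : Matrix (Fin M) (Fin M) ℂ).mulVec v = v)
    (β : ℝ) (hβ : 0 < β) :
    (∃ m : ℝ, ∀ R : ℕ, ∃ c : ℝ, 0 < c ∧ ∃ T₀ : ℕ, ∀ T : ℕ, T₀ ≤ T → ∃ n₀ : ℕ,
      ∀ (n : ℕ) [NeZero n], n₀ ≤ n → Even n → ∀ (x : Site n) (i j : Fin 4), i ≠ j →
        c * Real.exp (-(m * (2 * T))) ≤ (wilsonLoop σ π ρ β n x i j (2 * R) (2 * T)).re) ∧
    ∀ κ : ℝ, 0 < κ → ¬ AreaLaw σ π ρ β κ := by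
  have : T2Space G := T2Space.of_injective_continuous hinj hπ
  have : SecondCountableTopology (Matrix.unitaryGroup (Fin N) ℂ) := by
    have : SecondCountableTopology (Matrix (Fin N) (Fin N) ℂ) :=
      inferInstanceAs (SecondCountableTopology (Fin N → Fin N → ℂ))
    exact TopologicalSpace.Subtype.secondCountableTopology _
  have : SecondCountableTopology G :=
    (hπ.isClosedEmbedding hinj).isEmbedding.secondCountableTopology
  have hELIM := SC.ELIM.main TH964.CF.DEN.main
  obtain ⟨q, hq, h⟩ := SC.torus_lower (σ := σ) (β := β) (SC.PUSH.main hELIM) SC.GAV.main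
    SC.DLR2.main SC.RP1.main SC.WIL.main TH964.CF.POS.main SC.OBS.main TH964.CF.CL.main
    (TH964.CF.EX.main TH964.CF.TRP.main TH964.CF.TINV.main) SC.SYM.main hπ hρ hinj ⟨v, hv, hz⟩ hβ
  have first : ∀ R : ℕ, ∃ c : ℝ, 0 < c ∧ ∃ T₀ : ℕ, ∀ T : ℕ, T₀ ≤ T → ∃ n₀ : ℕ,
      ∀ (n : ℕ) [NeZero n], n₀ ≤ n → Even n → ∀ (x : Site n) (i j : Fin 4), i ≠ j →
        c * Real.exp (-(-Real.log q * (2 * T))) ≤
          (wilsonLoop σ π ρ β n x i j (2 * R) (2 * T)).re := by
    intro R
    obtain ⟨c, hc, k₀, h1⟩ := h R
    refine ⟨c, hc, k₀, fun T hT => ?_⟩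
    obtain ⟨m₀, h2⟩ := h1 T hT
    refine ⟨2 * m₀ + 2, fun n _ hn hne x i j hij => ?_⟩
    obtain ⟨m, rfl⟩ : ∃ m, n = 2 * m + 2 := by
      obtain ⟨r, hr⟩ := hne
      exact ⟨r - 1, by omega⟩
    rw [wilsonLoop_eq]
    have h3 := h2 m (by omega) x i j hij
    have e1 : Real.exp (-(-Real.log q * (2 * (T : ℝ)))) = q ^ (2 * T) := by
      have : -(-Real.log q * (2 * (T : ℝ))) = ((2 * T : ℕ) : ℝ) * Real.log q := by
        push_cast
        ring
      rw [this, Real.exp_nat_mul, Real.exp_log hq]
    rw [e1]
    exact h3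
  refine ⟨⟨_, first⟩, ?_⟩
  rintro κ hκ ⟨K, hK⟩
  refine SC.no_area (M := -Real.log q) hκ (K := K) (W := fun n a b =>
    if h : n = 0 then 0 else have : NeZero n := ⟨h⟩
      (wilsonLoop σ π ρ β n 0 0 1 a b).re) ?_ ?_
  · intro R
    obtain ⟨c, hc, T₀, h1⟩ := first R
    refine ⟨c, hc, T₀, fun T hT => ?_⟩
    obtain ⟨n₀, h2⟩ := h1 T hT
    refine ⟨n₀ + 1, fun n hn hne => ?_⟩
    have hn0 : n ≠ 0 := by omega
    have : NeZero n := ⟨hn0⟩
    simp only [dif_neg hn0]
    exact h2 n (by omega) hne 0 0 1 (by decide)
  · intro a b ha hb ε hε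
    obtain ⟨n₀, h2⟩ := hK a b ha hb ε hε
    refine ⟨n₀ + 1, fun n hn => ?_⟩
    have hn0 : n ≠ 0 := by omega
    have : NeZero n := ⟨hn0⟩
    simp only [dif_neg hn0]
    exact (Complex.re_le_norm _).trans (h2 n (by omega) 0 0 1 (by decide))

end Pool.Agent.Results.MP_7f377f_mp.AdjointScreening
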