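import Mathlib
import Pool.Agent.H906R3.YM.Conc
import Pool.Agent.W793.YM.GLim

/-!
# Lattice Yang-Mills theory: the scaling limit of the smeared field strength

Wilson's lattice gauge theory in dimension `d ≥ 3` with gauge group an arbitrary closed subgroup `G`
of `U(N)` at the inverse coupling `β`, on the periodic lattices `(ℤ/l)^d` and in all their infinite
volume limits. The lattice field strength `F_{jk}(x)` is the orthogonal projection of `√β U_{jk}(x)`
to the Lie algebra, `U_{jk}(x)` being the plaquette variable, transported to the origin along an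
arbitrary lattice path from the origin to `x`, of length at most `Λ (1 + |x|)`. For a test form
`φ = (φ^a_{jk})`, smooth with compact support in `ℝ^d`, let
`F_q(φ) = q ^ (-d/2) ∑_x ∑_{j<k} ∑_a φ^a_{jk}(x / q) F^a_{jk}(x)` be the field strength on the lattice
with the spacing `1/q`, smeared with `φ`.

**Theorem.** As `q → ∞`, uniformly in `β ≥ q ^ (60 d + 88)`, in the choice of the paths, in the volume
`l ≥ q ^ 8` and in the infinite volume limit, the characteristic functional `⟨exp (i F_q(φ))⟩`
converges to `exp (- (1/2) ∑_a ‖P φ^a‖²)`, where `P` is the orthogonal projection of the square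
integrable two forms on `ℝ^d` onto the closure of the exact forms `d α`.

This is the characteristic functional of the field strengths of `dim G` independent free Maxwell
fields, so the random distributions `F_q` converge in law to them: the continuum limit of the field
strength exists in the region `β ≥ q ^ K`, it does not depend on the transport, it is Gaussian and
Euclidean invariant, and it has no mass gap.
-/

open MeasureTheory Matrix Filter
open scoped Matrix.Norms.Frobenius Topology ContDiff

namespace Pool.Agent.Results.MP_7f377f_mp.SmearedFieldStrength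

set_option linter.unusedSectionVars false

noncomputable section

/-- Complex `N × N` matrices. -/
abbrev Mt (N : ℕ) := Matrix (Fin N) (Fin N) ℂ

/-- The unitary group `U(N)`. -/
abbrev UU (N : ℕ) := Matrix.unitaryGroup (Fin N) ℂ

/-- The matrix of an element of a subgroup of `U(N)`. -/
def mt {N : ℕ} {G : Subgroup (UU N)} (g : G) : Mt N := ((g : UU N) : Mt N)

/-- An orthonormal basis `X` of the Lie algebra of `G`, that is of the real space of all matrices `Y`
with `exp (t Y) ∈ G` for all real `t`, with the scalar product `Re tr (Y* Z)`; `ex a t` is the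
element `exp (t X_a)` of `G`. -/
structure LieBasis {N : ℕ} (G : Subgroup (UU N)) (n : ℕ) where
  X : Fin n → Mt N
  ex : Fin n → ℝ → G
  ex_eq : ∀ a t, mt (ex a t) = NormedSpace.exp (t • X a)
  orth : ∀ a b, (trace ((X a)ᴴ * X b)).re = if a = b then 1 else 0
  full : ∀ Y : Mt N, (∀ t : ℝ, ∃ g : G, mt g = NormedSpace.exp (t • Y)) →
    Y ∈ Submodule.span ℝ (Set.range X)

/-- Links of the periodic lattice `(ℤ/l)^d`: base point and direction. -/
abbrev Link (d l : ℕ) := (Fin d → ZMod l) × Fin d

/-- Links of the lattice `ℤ^d`: base point and direction. -/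
abbrev LinkZ (d : ℕ) := (Fin d → ℤ) × Fin d

section

variable {N n d l : ℕ} {G : Subgroup (UU N)}

/-- The product of the link variables around the plaquette at `x` in the directions `i`, `j`. -/
def plaq (U : Link d l → G) (x : Fin d → ZMod l) (i j : Fin d) : G :=
  U (x, i) * U (x + Pi.single i 1, j) * (U (x + Pi.single j 1, i))⁻¹ * (U (x, j))⁻¹

/-- The Wilson action `∑_p Re tr (1 - U_p)`, the sum over the plaquettes. -/
def action [NeZero l] (U : Link d l → G) : ℝ :=
  ∑ x : Fin d → ZMod l, ∑ i : Fin d, ∑ j : Fin d,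
    if i < j then (trace (1 - mt (plaq U x i j))).re else 0

/-- The periodic extension of a configuration. -/
def per (U : Link d l → G) : LinkZ d → G := fun e => U (fun i => (e.1 i : ZMod l), e.2)

/-- The expectation of `F` in the lattice Yang-Mills theory on `(ℤ/l)^d`, `μ` being the Haar
measure. -/
def expect (l : ℕ) [NeZero l] [MeasurableSpace G] (μ : Measure G) (β : ℝ)
    (F : (LinkZ d → G) → ℝ) : ℝ :=
  (∫ U : Link d l → G, F (per U) * Real.exp (-(β * action U)) ∂(Measure.pi fun _ => μ)) /
    ∫ U : Link d l → G, Real.exp (-(β * action U)) ∂(Measure.pi fun _ => μ)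

/-- `ν` is an infinite volume limit (weak limit along a subsequence) of the theories on the tori of
even side at inverse coupling `β`. -/
structure IsInfVol [MeasurableSpace G] (μ : Measure G) (β : ℝ)
    (ν : Measure (LinkZ d → G)) : Prop where
  prob : IsProbabilityMeasure ν
  lim : ∃ s : ℕ → ℕ, Tendsto s atTop atTop ∧ ∀ F : (LinkZ d → G) → ℝ, Continuous F →
    Tendsto (fun j => expect (2 * (s j + 1)) μ β F) atTop (𝓝 (∫ V, F V ∂ν))

/-- The plaquette variable of a configuration on `ℤ^d`. -/
def plaqZ (V : LinkZ d → G) (x : Fin d → ℤ) (i j : Fin d) : G :=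
  V (x, i) * V (x + Pi.single i 1, j) * (V (x + Pi.single j 1, i))⁻¹ * (V (x, j))⁻¹

/-- The parallel transport along the lattice path with starting point `x` and the given list of
steps; `(i, true)` is the step `+ e_i` and `(i, false)` the step `- e_i`. -/
def transport (V : LinkZ d → G) : (Fin d → ℤ) → List (Fin d × Bool) → G
  | _, [] => 1
  | x, (i, true) :: p => V (x, i) * transport V (x + Pi.single i 1) p
  | x, (i, false) :: p => (V (x - Pi.single i 1, i))⁻¹ * transport V (x - Pi.single i 1) p

/-- The end point of the lattice path with starting point `x` and the given list of steps. -/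
def endpoint {d : ℕ} : (Fin d → ℤ) → List (Fin d × Bool) → (Fin d → ℤ)
  | x, [] => x
  | x, (i, true) :: p => endpoint (x + Pi.single i 1) p
  | x, (i, false) :: p => endpoint (x - Pi.single i 1) p

/-- The component `F^a_{jk}(x) = √β Re tr (X_a* g U_{jk}(x) g⁻¹)` of the lattice field strength at `x`,
transported to the origin: `g` is the parallel transport along the path `p` from `0` to `x`. -/
def strength (B : LieBasis G n) (β : ℝ) (V : LinkZ d → G) (p : List (Fin d × Bool)) (a : Fin n)
    (j k : Fin d) (x : Fin d → ℤ) : ℝ :=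
  Real.sqrt β * (trace ((B.X a)ᴴ *
    mt (transport V 0 p * plaqZ V x j k * (transport V 0 p)⁻¹))).re

/-- The field strength on the lattice with the spacing `1/q`, smeared with the test form `φ`; the
field strength at `x` is transported to the origin along the path `p x`. -/
def smeared (B : LieBasis G n) (β : ℝ) (q : ℕ) (p : (Fin d → ℤ) → List (Fin d × Bool))
    (φ : Fin n → Fin d → Fin d → (Fin d → ℝ) → ℝ) (V : LinkZ d → G) : ℝ :=
  (∑' x : Fin d → ℤ, 1 / 2 * ∑ j, ∑ k, ∑ a, φ a j k (fun i => (x i : ℝ) / q) *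
    strength B β V (p x) a j k x) / Real.sqrt ((q : ℝ) ^ d)

end

section

variable {d : ℕ}

/-- Smooth one forms on `ℝ^d` with compact support. -/
structure IsOneForm (α : Fin d → (Fin d → ℝ) → ℝ) : Prop where
  smooth : ∀ k, ContDiff ℝ ∞ (α k)
  supp : ∀ k, HasCompactSupport (α k)

/-- Smooth two forms on `ℝ^d` with compact support. -/
structure IsTwoForm (φ : Fin d → Fin d → (Fin d → ℝ) → ℝ) : Prop where
  smooth : ∀ j k, ContDiff ℝ ∞ (φ j k)
  supp : ∀ j k, HasCompactSupport (φ j k)
  asymm : ∀ j k x, φ j k x = -φ k j x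

/-- The scalar product of two forms, `∑_{j<k} ∫ φ_{jk} ψ_{jk}`. -/
def inner2 (φ ψ : Fin d → Fin d → (Fin d → ℝ) → ℝ) : ℝ :=
  1 / 2 * ∑ j, ∑ k, ∫ x, φ j k x * ψ j k x

/-- The exterior derivative `(dα)_{jk} = ∂_j α_k - ∂_k α_j` of a one form. -/
def ext (α : Fin d → (Fin d → ℝ) → ℝ) (j k : Fin d) (x : Fin d → ℝ) : ℝ :=
  fderiv ℝ (α k) x (Pi.single j 1) - fderiv ℝ (α j) x (Pi.single k 1)

/-- The variance of the field strength of the free Maxwell field smeared with `φ`, that is the square
of the norm of the orthogonal projection of `φ` onto the closure of the exact forms `d α`: the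
supremum of `2 ⟨φ, d α⟩ - ⟨d α, d α⟩` over the smooth one forms `α` with compact support. -/
def maxwellVar (φ : Fin d → Fin d → (Fin d → ℝ) → ℝ) : ℝ :=
  sSup {v | ∃ α, IsOneForm α ∧ v = 2 * inner2 φ (ext α) - inner2 (ext α) (ext α)}

end

open Pool.Agent.H906R3 Pool.Agent.W793

variable {N n d l : ℕ} {G : Subgroup (UU N)}

/-- The same data in the form used by the helper files. -/
def fm (B : LieBasis G n) : YM.Frame G n where
  X := B.X
  ex := B.ex
  ex_eq := B.ex_eq
  orth := B.orth
  full := B.full

/-- The abstract data. -/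
def ld (B : LieBasis G n) : YM.LD G N n := (fm B).toLD

lemma action_eq [NeZero l] (B : LieBasis G n) (U : Link d l → G) :
    action U = YM.act (ld B) U := rfl

/-- A Haar probability measure is invariant under right multiplications. -/
lemma right_inv {H : Type*} [Group H] [TopologicalSpace H] [IsTopologicalGroup H]
    [CompactSpace H] [MeasurableSpace H] [BorelSpace H] (μ : Measure H)
    [IsProbabilityMeasure μ] [μ.IsHaarMeasure] : μ.IsMulRightInvariant := by
  refine ⟨fun g => ?_⟩
  have h1 : IsProbabilityMeasure (Measure.map (fun x => x * g) μ) :=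
    Measure.isProbabilityMeasure_map (measurable_mul_const g).aemeasurable
  exact Measure.isHaarMeasure_eq_of_isProbabilityMeasure _ _

/-- A Haar probability measure is invariant under the inversion. -/
lemma inv_inv' {H : Type*} [Group H] [TopologicalSpace H] [IsTopologicalGroup H]
    [CompactSpace H] [MeasurableSpace H] [BorelSpace H] (μ : Measure H)
    [IsProbabilityMeasure μ] [μ.IsHaarMeasure] : μ.IsInvInvariant := by
  have hr := right_inv μ
  refine ⟨?_⟩
  have h1 : IsProbabilityMeasure μ.inv :=
    Measure.isProbabilityMeasure_map measurable_inv.aemeasurable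
  have h2 : μ.inv.IsMulLeftInvariant := inferInstance
  have h3 : μ.inv.IsHaarMeasure :=
    Measure.isHaarMeasure_of_isCompact_nonempty_interior μ.inv Set.univ isCompact_univ
      (by simp) (by simp) (by simp)
  exact Measure.isHaarMeasure_eq_of_isProbabilityMeasure _ _

section bridge

variable [CompactSpace G] [SecondCountableTopology G] [MeasurableSpace G] [BorelSpace G]
  (μ : Measure G) [IsProbabilityMeasure μ] [μ.IsHaarMeasure] (B : LieBasis G n)

lemma expect_eq [NeZero l] (β : ℝ) (F : (LinkZ d → G) → ℝ) : expect l μ β F =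
    YM.EX μ (ld B) β (fun U : YM.Ed d l → G => F (YM.lf U)) := by
  unfold expect YM.EX YM.Zt
  simp only [one_mul]
  rfl

include B in
lemma action_cont [NeZero l] : Continuous (action : (Link d l → G) → ℝ) :=
  YM.act_cont (L := ld B)

include B in
/-- existence of infinite volume limits -/
lemma exists_infVol (β : ℝ) : ∃ ν : Measure (LinkZ d → G), IsInfVol μ β ν := by
  have hP : ∀ j : ℕ, ∃ P : ProbabilityMeasure (LinkZ d → G),
      ∀ F : (LinkZ d → G) → ℝ, Continuous F →
        ∫ V, F V ∂(P : Measure (LinkZ d → G)) = expect (2 * (j + 1)) μ β F := by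
    intro j
    have hper : Continuous (per : (Link d (2 * (j + 1)) → G) → LinkZ d → G) :=
      continuous_pi fun e => continuous_apply _
    have hexp : Continuous fun U : Link d (2 * (j + 1)) → G =>
        Real.exp (-(β * action U)) :=
      Real.continuous_exp.comp (continuous_const.mul (action_cont B)).neg
    have hint : Integrable (fun U : Link d (2 * (j + 1)) → G =>
        Real.exp (-(β * action U))) (Measure.pi fun _ => μ) :=
      hexp.integrable_of_hasCompactSupport (HasCompactSupport.of_compactSpace _)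
    have h1 := isProbabilityMeasure_tilted (f := fun U : Link d (2 * (j + 1)) → G =>
      -(β * action U)) hint
    refine ⟨⟨((Measure.pi fun _ => μ).tilted fun U : Link d (2 * (j + 1)) → G =>
      -(β * action U)).map per, Measure.isProbabilityMeasure_map hper.aemeasurable⟩,
      fun F hF => ?_⟩
    show ∫ V, F V ∂(((Measure.pi fun _ => μ).tilted fun U : Link d (2 * (j + 1)) → G =>
      -(β * action U)).map per) = _
    rw [integral_map hper.aemeasurable hF.aestronglyMeasurable, integral_tilted]
    unfold expect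
    rw [← integral_div]
    refine integral_congr_ae (Filter.Eventually.of_forall fun U => ?_)
    simp only [smul_eq_mul]
    ring
  choose P hP using hP
  obtain ⟨ν, s, hs, hlim⟩ := CompactSpace.tendsto_subseq P
  refine ⟨ν, ⟨inferInstance, s, hs.tendsto_atTop, fun F hF => ?_⟩⟩
  have h1 := (ProbabilityMeasure.tendsto_iff_forall_integral_tendsto.1 hlim)
    (BoundedContinuousFunction.mkOfCompact ⟨F, hF⟩)
  simp only [Function.comp_apply, BoundedContinuousFunction.mkOfCompact_apply,
    ContinuousMap.coe_mk] at h1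
  simpa only [hP _ F hF] using h1

end bridge

lemma transport_eq (V : LinkZ d → G) (p : List (Fin d × Bool)) : ∀ x : Fin d → ℤ,
    transport V x p = YM.hol V x p := by
  induction p with
  | nil => intro x; simp only [transport, YM.hol]
  | cons s p ih =>
    intro x
    obtain ⟨i, b⟩ := s
    cases b
    · simp only [transport, YM.hol, ih]
    · simp only [transport, YM.hol, ih]

lemma endpoint_eq (p : List (Fin d × Bool)) : ∀ x : Fin d → ℤ,
    endpoint x p = YM.dest x p := by
  induction p with
  | nil => intro x; simp only [endpoint, YM.dest]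
  | cons s p ih =>
    intro x
    obtain ⟨i, b⟩ := s
    cases b
    · simp only [endpoint, YM.dest, ih]
    · simp only [endpoint, YM.dest, ih]

lemma smeared_eq (B : LieBasis G n) (β : ℝ) (q : ℕ) (p : (Fin d → ℤ) → List (Fin d × Bool))
    (φ : Fin n → Fin d → Fin d → (Fin d → ℝ) → ℝ) (V : LinkZ d → G) :
    smeared B β q p φ V = -(Real.sqrt β * YM.FZs (ld B) φ p q V) := by
  have h1 : ∀ (x : Fin d → ℤ) (a : Fin n) (j k : Fin d), strength B β V (p x) a j k x =
      -(Real.sqrt β * YM.fi (ld B) a (YM.hol V 0 (p x) * YM.plz V x j k *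
        (YM.hol V 0 (p x))⁻¹)) := by
    intro x a j k
    unfold strength YM.fi
    rw [YM.trX_apply, transport_eq]
    have h2 : (B.X a)ᴴ = -B.X a := (fm B).skewX a
    rw [h2, neg_mul, trace_neg, Complex.neg_re, mul_neg]
    rfl
  unfold smeared YM.FZs
  have h2 : (fun x : Fin d → ℤ => 1 / 2 * ∑ j, ∑ k, ∑ a, φ a j k (fun i => (x i : ℝ) / q) *
      strength B β V (p x) a j k x) = fun x => -(Real.sqrt β) * (1 / 2 * ∑ j, ∑ k, ∑ a,
        φ a j k (fun i => (x i : ℝ) / q) * YM.fi (ld B) a (YM.hol V 0 (p x) * YM.plz V x j k *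
        (YM.hol V 0 (p x))⁻¹)) := by
    funext x
    simp only [h1, Finset.mul_sum]
    refine Finset.sum_congr rfl fun j _ => Finset.sum_congr rfl fun k _ =>
      Finset.sum_congr rfl fun a _ => ?_
    ring
  rw [h2, tsum_mul_left]
  ring

theorem result {N n d : ℕ} (hd : 3 ≤ d) (G : Subgroup (UU N)) (hG : IsClosed (G : Set (UU N)))
    [MeasurableSpace G] [BorelSpace G] (μ : Measure G) [IsProbabilityMeasure μ] [μ.IsHaarMeasure]
    (B : LieBasis G n) (φ : Fin n → Fin d → Fin d → (Fin d → ℝ) → ℝ)
    (hφ : ∀ a, IsTwoForm (φ a)) (Λ : ℕ) (ε : ℝ) (hε : 0 < ε) :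
    ∃ q₀ : ℕ, ∀ q : ℕ, q₀ ≤ q → ∀ β : ℝ, (q : ℝ) ^ (60 * d + 88) ≤ β →
      ∀ p : (Fin d → ℤ) → List (Fin d × Bool), (∀ x, endpoint 0 (p x) = x) →
        (∀ x, (p x).length ≤ Λ * (1 + ∑ i, (x i).natAbs)) →
        (∀ (l : ℕ) [NeZero l], Even l → q ^ 8 ≤ l →
          |expect l μ β (fun V => Real.cos (smeared B β q p φ V)) -
            Real.exp (-(∑ a, maxwellVar (φ a)) / 2)| ≤ ε ∧
          |expect l μ β (fun V => Real.sin (smeared B β q p φ V))| ≤ ε) ∧
        (∀ ν : Measure (LinkZ d → G), IsInfVol μ β ν →
          |∫ V, Real.cos (smeared B β q p φ V) ∂ν -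
            Real.exp (-(∑ a, maxwellVar (φ a)) / 2)| ≤ ε ∧
          |∫ V, Real.sin (smeared B β q p φ V) ∂ν| ≤ ε) ∧
        ∃ ν : Measure (LinkZ d → G), IsInfVol μ β ν := by
  have : CompactSpace G := by
    have h1 : IsCompact (G : Set (UU N)) := hG.isCompact
    exact isCompact_iff_compactSpace.1 h1
  have h00 : SecondCountableTopology (UU N) := TopologicalSpace.Subtype.secondCountableTopology _
  have : SecondCountableTopology G := TopologicalSpace.Subtype.secondCountableTopology _
  have := right_inv μ
  have := inv_inv' μ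
  have hφ' : ∀ a, YM.IsTwo (φ a) := fun a => ⟨(hφ a).smooth, (hφ a).supp, (hφ a).asymm⟩
  have hvar : ∀ a, maxwellVar (φ a) = YM.var (φ a) := by
    intro a
    unfold maxwellVar YM.var
    congr 1
    ext v
    constructor
    · rintro ⟨α, hα, rfl⟩
      exact ⟨α, ⟨hα.smooth, hα.supp⟩, rfl⟩
    · rintro ⟨α, hα, rfl⟩
      exact ⟨α, ⟨hα.smooth, hα.supp⟩, rfl⟩
  obtain ⟨q₀, hq₀⟩ := eventually_atTop.1 (YM.gauss_lim μ (L := ld B) hd Λ hφ' hε)
  refine ⟨max q₀ 1, fun q hq β hβ p hp1 hp2 => ?_⟩
  have hq1 : 1 ≤ q := (le_max_right _ _).trans hq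
  have hq1' : (1 : ℝ) ≤ q := by exact_mod_cast hq1
  have hβ0 : 0 ≤ β := le_trans (by positivity) hβ
  set b : ℝ := Real.sqrt (Real.sqrt β) with hb
  have hb0 : 0 ≤ b := Real.sqrt_nonneg _
  have hb2 : b ^ 2 = Real.sqrt β := by rw [hb, Real.sq_sqrt (Real.sqrt_nonneg _)]
  have hb4 : b ^ 4 = β := by
    rw [show b ^ 4 = (b ^ 2) ^ 2 by ring, hb2, Real.sq_sqrt hβ0]
  have hbq : (q : ℝ) ^ (15 * d + 22) ≤ b := by
    have h1 : ((q : ℝ) ^ (15 * d + 22)) ^ 4 ≤ b ^ 4 := by
      rw [hb4, ← pow_mul]
      have : (15 * d + 22) * 4 = 60 * d + 88 := by ring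
      rw [this]
      exact hβ
    exact le_of_pow_le_pow_left₀ (by norm_num) hb0 h1
  have hp1' : ∀ x, YM.dest 0 (p x) = x := fun x => by rw [← endpoint_eq]; exact hp1 x
  have hfin : ∀ (l : ℕ) [NeZero l], Even l → q ^ 8 ≤ l →
      |expect l μ β (fun V => Real.cos (smeared B β q p φ V)) -
        Real.exp (-(∑ a, maxwellVar (φ a)) / 2)| ≤ ε ∧
      |expect l μ β (fun V => Real.sin (smeared B β q p φ V))| ≤ ε := by
    intro l _ hl hql
    obtain ⟨m, rfl⟩ := even_iff_two_dvd.1 hl
    haveI hm0 : NeZero m := ⟨by
      rintro rfl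
      exact (NeZero.ne (2 * 0)) rfl⟩
    obtain ⟨h1, h2⟩ := hq₀ q ((le_max_left _ _).trans hq) b hbq m hql p hp1' hp2
    rw [hb4, hb2] at h1 h2
    simp only [expect_eq μ B, smeared_eq, Real.cos_neg, Real.sin_neg, hvar]
    constructor
    · convert h1 using 4
      ring
    · have h3 : YM.EX μ (ld B) β (fun U : YM.Ed d (2 * m) → G =>
          -Real.sin (Real.sqrt β * YM.FZs (ld B) φ p q (YM.lf U))) =
          -YM.EX μ (ld B) β (fun U : YM.Ed d (2 * m) → G =>
            Real.sin (Real.sqrt β * YM.FZs (ld B) φ p q (YM.lf U))) := by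
        have := YM.EX_smul (μ := μ) (L := ld B) (β := β) (-1 : ℝ)
          (fun U : YM.Ed d (2 * m) → G => Real.sin (Real.sqrt β * YM.FZs (ld B) φ p q (YM.lf U)))
        simpa using this
      rw [h3, abs_neg]
      exact h2
  have hc : Continuous fun V : LinkZ d → G => smeared B β q p φ V := by
    have h1 : (fun V : LinkZ d → G => smeared B β q p φ V) = fun V =>
        -(Real.sqrt β * YM.FZs (ld B) φ p q V) := funext fun V => smeared_eq B β q p φ V
    rw [h1]
    exact (continuous_const.mul (YM.FZs_cont (L := ld B) p hq1 hφ')).neg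
  refine ⟨hfin, fun ν hν => ?_, exists_infVol μ B β⟩
  obtain ⟨sq, hsq, hlim⟩ := hν.lim
  have hev : ∀ᶠ j in atTop, q ^ 8 ≤ 2 * (sq j + 1) := by
    filter_upwards [hsq.eventually_ge_atTop (q ^ 8)] with j hj
    omega
  constructor
  · refine le_of_tendsto ((((hlim _ (Real.continuous_cos.comp hc)).sub_const
      (Real.exp (-(∑ a, maxwellVar (φ a)) / 2)))).abs) ?_
    filter_upwards [hev] with j hj
    exact (hfin (2 * (sq j + 1)) (even_two_mul _) hj).1
  · refine le_of_tendsto ((hlim _ (Real.continuous_sin.comp hc)).abs) ?_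
    filter_upwards [hev] with j hj
    exact (hfin (2 * (sq j + 1)) (even_two_mul _) hj).2

end

end Pool.Agent.Results.MP_7f377f_mp.SmearedFieldStrength
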