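import Pool.Agent.X143.AL.Aniso
import Pool.Agent.H678R3.PBase

/-!
# Two small coupling constants out of six: the area law for the loops of three planes
-/

set_option autoImplicit false

namespace Pool.Agent.X168.Moved.TwoSmallCouplings

open MeasureTheory Pool.Agent.H678R3.Perc Pool.Agent.H678R3.WilsonLoop

/-- **Area law for all loops with a side in the time direction, if two of the six couplings are
small.**
`G` is a compact group with normalised Haar measure `μ`, `π` a unitary representation of dimension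
`N` on which a central element `z` acts as a scalar `ζ ≠ 1` (for instance the defining representation
of `SU(N)`).  The lattice is `{0, ..., T} × {0, ..., H} × Y` for a finite graph `Y` with edges `K`,
such as a box of `ℤ²`; the first direction is called time.  The weights of the plaquettes spanned by
time and the second direction lie in `[a, b]`, those of the plaquettes spanned by time and `K` in
`[a', b']` (for the Wilson weight `exp (β Re tr π)` one can take `exp (-N β)` and `exp (N β)`); all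
other plaquettes, in particular all magnetic ones, have arbitrary weights.  There are `ε, c > 0`,
depending only on `ρ` and `k`, such that, if `ρ ≤ a / b` and `1 - ε ≤ a' / b'`, for all `H`, `T` and
all `Y` in which at most `k` edges begin and at most `k` end in each vertex, the loops over any two
sites `(i, u)` and `(j, v)` with time extension `T` are at most
`N exp (-c (|i - j| + |f u - f v|) T)`, where `f` is an arbitrary function on `Y` which changes by at
most `1` along the edges of `Y`, such as a coordinate or the distance from `u` in the graph `Y`. -/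
theorem result {G : Type} [Group G] [TopologicalSpace G] [IsTopologicalGroup G] [CompactSpace G]
    [SecondCountableTopology G] [MeasurableSpace G] [BorelSpace G]
    (μ : Measure G) [IsProbabilityMeasure μ] [μ.IsHaarMeasure]
    {N : ℕ} (π : G →* Matrix.unitaryGroup (Fin N) ℂ) (hπ : Continuous π)
    {z : G} (hz : ∀ g, z * g = g * z) {ζ : ℂ}
    (hζ : (π z : Matrix (Fin N) (Fin N) ℂ) = ζ • (1 : Matrix (Fin N) (Fin N) ℂ)) (hζ1 : ζ ≠ 1)
    (k : ℕ) (ρ : ℝ) (hρ : 0 < ρ) (hρ1 : ρ ≤ 1) : ∃ ε c : ℝ, 0 < ε ∧ 0 < c ∧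
      ∀ (H T : ℕ) (Y K : Type) [Fintype Y] [DecidableEq Y] [Fintype K] [DecidableEq K]
      (s t : K → Y), (∀ y, (Finset.univ.filter fun κ => s κ = y).card ≤ k) →
      (∀ y, (Finset.univ.filter fun κ => t κ = y).card ≤ k) →
      ∀ f : Y → ℤ, (∀ κ, |f (s κ) - f (t κ)| ≤ 1) →
      ∀ (w : Fin T → (Fin H × Y) ⊕ (Fin (H + 1) × K) → G → ℝ) (a b a' b' : ℝ),
      (∀ r e, Measurable (w r e)) → 0 < a → a ≤ b → 0 < a' → a' ≤ b' →
      ρ ≤ a / b → 1 - ε ≤ a' / b' →
      (∀ r i y g, a ≤ w r (Sum.inl (i, y)) g ∧ w r (Sum.inl (i, y)) g ≤ b) →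
      (∀ r i κ g, a' ≤ w r (Sum.inr (i, κ)) g ∧ w r (Sum.inr (i, κ)) g ≤ b') →
      ∀ (i j : Fin (H + 1)) (u v : Y), LoopLE μ (lsrc s) (ltgt t) w π (i, u) (j, v)
        (N * Real.exp (-(c * (|((i : ℕ) : ℝ) - ((j : ℕ) : ℝ)| + |(f u : ℝ) - (f v : ℝ)|) * T))) := by
  obtain ⟨ε, c, hε, hc, hmain⟩ := Pool.Agent.X143.AL.cp_decay2 k hρ hρ1
  refine ⟨ε, c, hε, hc, ?_⟩
  intro H T Y K _ _ _ _ s t hs ht f hf w a b a' b' hw ha hab ha' hab' hρab hεab hl hr i j u v
  have hb : 0 < b := ha.trans_le hab
  have hb' : 0 < b' := ha'.trans_le hab'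
  set A : (Fin H × Y) ⊕ (Fin (H + 1) × K) → ℝ := fun e => Sum.elim (fun _ => a) (fun _ => a') e
    with hA
  set Bd : (Fin H × Y) ⊕ (Fin (H + 1) × K) → ℝ := fun e => Sum.elim (fun _ => b) (fun _ => b') e
    with hB
  have hAB : ∀ e, 0 < A e ∧ A e ≤ Bd e := by
    rintro (⟨i, y⟩ | ⟨i, κ⟩)
    · exact ⟨ha, hab⟩
    · exact ⟨ha', hab'⟩
  have hwAB : ∀ r e g, A e ≤ w r e g ∧ w r e g ≤ Bd e := by
    rintro r (⟨i, y⟩ | ⟨i, κ⟩) g
    · exact hl r i y g
    · exact hr r i κ g
  have key := perc_bound μ π hπ hz hζ hζ1 (lsrc s) (ltgt t) hw hAB hwAB (i, u) (j, v)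
  have h0 : ∀ e, 0 ≤ 1 - A e / Bd e := fun e => by
    rw [sub_nonneg, div_le_one ((hAB e).1.trans_le (hAB e).2)]
    exact (hAB e).2
  have h1 : ∀ e, 1 - A e / Bd e ≤ 1 := fun e => by
    have := div_nonneg (hAB e).1.le ((hAB e).1.trans_le (hAB e).2).le
    linarith
  refine key.mono (fun r e g => (hAB e).1.le.trans (hwAB r e g).1) ?_
  refine mul_le_mul_of_nonneg_left ?_ (Nat.cast_nonneg N)
  have h2 := hmain H Y K s t hs ht f hf (fun e => 1 - A e / Bd e) h0 h1
    (fun i y => by
      show 1 - a / b ≤ 1 - ρ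
      linarith)
    (fun i κ => by
      show 1 - a' / b' ≤ ε
      linarith) i j u v
  refine (pow_le_pow_left₀ (cp_nonneg h0 h1 _ _ _) h2 T).trans_eq ?_
  rw [← Real.exp_nat_mul]
  congr 1
  ring

end Pool.Agent.X168.Moved.TwoSmallCouplings
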